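import Mathlib
import Pool.Agent.X317.Sem.Semi
import Pool.Agent.X317.Kos.Mon

/-!
# MP_c132d1_al: the Betti numbers of the semigroup rings of `S_{2,4}` and `S_{2,5}`
-/

set_option autoImplicit false
set_option linter.all false

open Finset Pool.Agent.X317 MvPolynomial

namespace Pool.Agent.Results.MP_c132d1_al.BettiNumbers

/-- The `i`-th element (from `0`) of `{0, 1, 2, …} ∖ {m, n}`, for `m < n`. For `i < e - 2` it is the
`i`-th element of `J_{m,n} = {0, …, e - 1} ∖ {m, n}`, when `n < e`. -/
def elementOfJ (m n i : ℕ) : ℕ := if i < m then i else if i + 1 < n then i + 1 else i + 2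

/-- The polynomial ring `R_{m,n} = k[X_i : i ∈ J_{m,n}]`: the variable `X i`, `i < e - 2`, is the
variable of the `i`-th element of `J_{m,n}`. -/
abbrev R (k : Type*) [Field k] (e : ℕ) := MvPolynomial (Fin (e - 2)) k

/-- The map `R_{m,n} → k[t]`, `X_j ↦ t ^ (e + j)` for `j` in `J_{m,n}`. -/
noncomputable def toPoly (k : Type*) [Field k] (e m n : ℕ) : R k e →ₐ[k] Polynomial k :=
  MvPolynomial.aeval fun i : Fin (e - 2) => Polynomial.X ^ (e + elementOfJ m n i)

/-- The ideal `I_{m,n}`. -/
noncomputable def defIdeal (k : Type*) [Field k] (e m n : ℕ) : Ideal (R k e) :=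
  RingHom.ker (toPoly k e m n)

/-- The Betti number `β_j(m, n) = dim_k Tor_j(R/I, k)`: the dimension of the `j`-th Koszul homology
of `R/I` with respect to the variables of `R`. -/
noncomputable def betti (k : Type*) [Field k] (e m n j : ℕ) : ℕ :=
  Kos.betti k (n := e - 2) (R k e ⧸ defIdeal k e m n) j

/-- the elements of the semigroup -/
theorem pp_mem (k : Type*) [Field k] {n' : ℕ} (hn' : n' = 4 ∨ n' = 5) {n : ℕ} (hn : 2 ≤ n) (d : ℕ) :
    Sem.PP (n + 4) n' d → (Polynomial.X ^ d : Polynomial k) ∈ (toPoly k (n + 4) 2 n').range := by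
  have hX : ∀ i, i < n + 2 →
      (Polynomial.X ^ (n + 4 + elementOfJ 2 n' i) : Polynomial k) ∈
        (toPoly k (n + 4) 2 n').range := by
    intro i hi
    refine ⟨X (⟨i, hi⟩ : Fin (n + 4 - 2)), ?_⟩
    exact MvPolynomial.aeval_X _ _
  have h0 : (Polynomial.X ^ (n + 4) : Polynomial k) ∈ (toPoly k (n + 4) 2 n').range := by
    have h := hX 0 (by omega)
    have h1 : elementOfJ 2 n' 0 = 0 := by
      unfold elementOfJ
      rw [if_pos (by omega)]
    rwa [h1, add_zero] at h
  have h1 : (Polynomial.X ^ (n + 5) : Polynomial k) ∈ (toPoly k (n + 4) 2 n').range := by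
    have h := hX 1 (by omega)
    have h1 : elementOfJ 2 n' 1 = 1 := by
      unfold elementOfJ
      rw [if_pos (by omega)]
    rwa [h1] at h
  induction d using Nat.strong_induction_on with
  | _ d ih =>
    intro hd
    rcases hd with rfl | ⟨h2, h3, h4⟩
    · rw [pow_zero]
      exact one_mem _
    by_cases h5 : d < 2 * (n + 4)
    · obtain ⟨i, hi, hid⟩ : ∃ i < n + 2, elementOfJ 2 n' i = d - (n + 4) := by
        by_cases h6 : d < n + 4 + 2
        · refine ⟨d - (n + 4), by omega, ?_⟩
          unfold elementOfJ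
          rw [if_pos (by omega)]
        · by_cases h7 : d < n + 4 + n'
          · refine ⟨d - (n + 4) - 1, by omega, ?_⟩
            unfold elementOfJ
            rw [if_neg (by omega), if_pos (by omega)]
            omega
          · refine ⟨d - (n + 4) - 2, by omega, ?_⟩
            unfold elementOfJ
            rw [if_neg (by omega), if_neg (by omega)]
            omega
      have h := hX i hi
      rw [hid] at h
      have h8 : n + 4 + (d - (n + 4)) = d := by omega
      rwa [h8] at h
    by_cases h6 : Sem.PP (n + 4) n' (d - (n + 4))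
    · have h7 := mul_mem h0 (ih (d - (n + 4)) (by omega) h6)
      rw [← pow_add] at h7
      have h8 : n + 4 + (d - (n + 4)) = d := by omega
      rwa [h8] at h7
    · have h7 := mul_mem h1 (ih (d - (n + 5)) (by omega) (by
        unfold Sem.PP at h6 ⊢
        omega))
      rw [← pow_add] at h7
      have h8 : n + 5 + (d - (n + 5)) = d := by omega
      rwa [h8] at h7

theorem range_iff (k : Type*) [Field k] {n' : ℕ} (hn' : n' = 4 ∨ n' = 5) {n : ℕ} (hn : 2 ≤ n)
    (f : Polynomial k) :
    f ∈ (toPoly k (n + 4) 2 n').range ↔ ∀ d, f.coeff d ≠ 0 → Sem.PP (n + 4) n' d := by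
  constructor
  · rintro ⟨a, rfl⟩
    change ∀ d, (toPoly k (n + 4) 2 n' a).coeff d ≠ 0 → Sem.PP (n + 4) n' d
    induction a using MvPolynomial.induction_on with
    | C c =>
      intro d hd
      left
      by_contra h
      apply hd
      have h1 : toPoly k (n + 4) 2 n' (C c) = Polynomial.C c := MvPolynomial.aeval_C _ _
      rw [h1, Polynomial.coeff_C, if_neg h]
    | add a b ha hb =>
      intro d hd
      by_contra h
      apply hd
      rw [map_add, Polynomial.coeff_add]
      have h1 : (toPoly k (n + 4) 2 n' a).coeff d = 0 := by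
        by_contra h2
        exact h (ha d h2)
      have h2 : (toPoly k (n + 4) 2 n' b).coeff d = 0 := by
        by_contra h2
        exact h (hb d h2)
      rw [h1, h2, add_zero]
    | mul_X a i ha =>
      intro d hd
      have h1 : toPoly k (n + 4) 2 n' (X i) = Polynomial.X ^ (n + 4 + elementOfJ 2 n' i) :=
        MvPolynomial.aeval_X _ _
      rw [map_mul, h1, Polynomial.coeff_mul_X_pow'] at hd
      split_ifs at hd with h2
      · have h3 := ha _ hd
        have h4 : (i : ℕ) < n + 4 - 2 := i.2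
        unfold Sem.PP at h3 ⊢
        unfold elementOfJ at h2 h3
        rcases hn' with rfl | rfl <;> split_ifs at h2 h3 <;> omega
      · exact absurd rfl hd
  · intro h
    rw [f.as_sum_range_C_mul_X_pow]
    refine sum_mem fun d _ => ?_
    by_cases hd : f.coeff d = 0
    · rw [hd, map_zero, zero_mul]
      exact zero_mem _
    · refine mul_mem ?_ (pp_mem k hn' hn d (h d hd))
      exact ⟨C (f.coeff d), MvPolynomial.aeval_C _ _⟩

/-- the embedding of `R/I` -/
noncomputable def iota (k : Type*) [Field k] (e m n : ℕ) :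
    (R k e ⧸ defIdeal k e m n) →ₗ[k] Polynomial k :=
  (Ideal.kerLiftAlg (toPoly k e m n)).toLinearMap

theorem iota_mk (k : Type*) [Field k] (e m n : ℕ) (a : R k e) :
    iota k e m n (Ideal.Quotient.mk _ a) = toPoly k e m n a := rfl

theorem iota_smul (k : Type*) [Field k] (e m n : ℕ) (a : R k e) (b : R k e ⧸ defIdeal k e m n) :
    iota k e m n (a • b) = toPoly k e m n a * iota k e m n b := by
  obtain ⟨b, rfl⟩ := Ideal.Quotient.mk_surjective b
  have h : a • (Ideal.Quotient.mk (defIdeal k e m n) b) = Ideal.Quotient.mk _ (a * b) := rfl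
  rw [h, iota_mk, iota_mk, map_mul]

theorem iota_injective (k : Type*) [Field k] (e m n : ℕ) : Function.Injective (iota k e m n) := by
  rw [injective_iff_map_eq_zero]
  intro b hb
  obtain ⟨b, rfl⟩ := Ideal.Quotient.mk_surjective b
  rw [iota_mk] at hb
  exact Ideal.Quotient.eq_zero_iff_mem.2 hb

theorem betti_eq (k : Type*) [Field k] {n' : ℕ} (hn' : n' = 4 ∨ n' = 5) {n : ℕ} (hn : 2 ≤ n)
    (i : ℕ) : betti k (n + 4) 2 n' (i + 1) = (i + 1) * (n + 2).choose (i + 2) := by
  have hX : ∀ v : Fin (n + 4 - 2), toPoly k (n + 4) 2 n' (X v) =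
      Polynomial.X ^ (n + 4 + elementOfJ 2 n' v) := fun v => MvPolynomial.aeval_X _ _
  refine Sem.semi (k := k) (A := R k (n + 4)) (M := R k (n + 4) ⧸ defIdeal k (n + 4) 2 n') hn' hn
    (fun i : Fin (n + 4 - 2) => (X i : R k (n + 4))) (iota k (n + 4) 2 n')
    (iota_injective _ _ _ _) ?_ ?_ ?_ i
  · intro f
    rw [← range_iff k hn' hn]
    constructor
    · rintro ⟨m, rfl⟩
      obtain ⟨a, rfl⟩ := Ideal.Quotient.mk_surjective m
      exact ⟨a, rfl⟩
    · rintro ⟨a, rfl⟩
      exact ⟨Ideal.Quotient.mk _ a, rfl⟩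
  · intro m
    rw [iota_smul, hX]
    rfl
  · intro v m
    rw [iota_smul, hX]
    rfl

/-- **The Betti numbers of `k[S_{2,4}]` and `k[S_{2,5}]`.** -/
theorem result (k : Type*) [Field k] (e : ℕ) (he : 6 ≤ e) (j : ℕ) (hj : 1 ≤ j) :
    betti k e 2 4 j = j * (e - 2).choose (j + 1) ∧ betti k e 2 5 j = j * (e - 2).choose (j + 1) := by
  obtain ⟨n, rfl⟩ := Nat.exists_eq_add_of_le' (show 4 ≤ e by omega)
  obtain ⟨i, rfl⟩ := Nat.exists_eq_add_of_le' hj
  exact ⟨betti_eq k (Or.inl rfl) (by omega) i, betti_eq k (Or.inr rfl) (by omega) i⟩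

end Pool.Agent.Results.MP_c132d1_al.BettiNumbers
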